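import Pool.Agent.H61.CMC.TargetsE1

/-!
# Row E1_PSM: Poisson summation for Gaussians with a harmonic polynomial
-/

namespace Pool.Agent.H67.CMC1

open MeasureTheory Set Filter NumberField NumberField.InfinitePlace NumberField.Units
  NumberField.Units.dirichletUnitTheorem Pool.Agent.H65.CM4 Pool.Agent.H65.CMC Pool.Agent.H25.HK
  Pool.Agent.H61.CM4 Pool.Agent.H61.CMC
open scoped Real

namespace PSM

variable {J X : Type} [Fintype J] [DecidableEq J]

/-- dominated summability -/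
theorem summable_aux (ga : X → ℂ) (Z : X → J → ℂ) (La : X → ℝ)
    (hs : ∀ R : ℝ, Summable (fun n => ‖ga n‖ * Real.exp (R * La n)))
    (hZ : ∀ n v, ‖Z n v‖ ≤ La n) (h0 : ∀ n, 0 ≤ La n) (d : J → ℕ) (S T : Finset J)
    (μ : J → ℂ) (v₀ : J) (R : ℝ) :
    Summable (fun n => ‖ga n * (∏ v ∈ S, Z n v ^ d v) * Complex.exp (∑ v ∈ T, μ v * Z n v)‖ *
      Real.exp (R * ‖Z n v₀‖)) := by
  have hsum := (hs (S.card + ∑ v ∈ T, ‖μ v‖ + |R|)).mul_left (∏ v ∈ S, ((d v).factorial : ℝ))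
  refine Summable.of_nonneg_of_le (fun n => by positivity) (fun n => ?_) hsum
  have h1 : ‖∏ v ∈ S, Z n v ^ d v‖ ≤
      (∏ v ∈ S, ((d v).factorial : ℝ)) * Real.exp (S.card * La n) := by
    rw [norm_prod]
    have h2 : Real.exp (S.card * La n) = ∏ _v ∈ S, Real.exp (La n) := by
      rw [Finset.prod_const, ← Real.exp_nat_mul]
    rw [h2, ← Finset.prod_mul_distrib]
    refine Finset.prod_le_prod (fun v _ => norm_nonneg _) fun v _ => ?_
    rw [norm_pow]
    have h3 : ‖Z n v‖ ^ d v ≤ La n ^ d v := pow_le_pow_left₀ (norm_nonneg _) (hZ n v) _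
    have h4 := Real.pow_div_factorial_le_exp (La n) (h0 n) (d v)
    have h5 : (0 : ℝ) < (d v).factorial := by exact_mod_cast (d v).factorial_pos
    rw [div_le_iff₀ h5] at h4
    calc ‖Z n v‖ ^ d v ≤ La n ^ d v := h3
      _ ≤ Real.exp (La n) * (d v).factorial := h4
      _ = (d v).factorial * Real.exp (La n) := mul_comm _ _
  have h2 : ‖Complex.exp (∑ v ∈ T, μ v * Z n v)‖ ≤ Real.exp ((∑ v ∈ T, ‖μ v‖) * La n) := by
    refine (Complex.norm_exp_le_exp_norm _).trans (Real.exp_le_exp.2 ?_)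
    refine (norm_sum_le _ _).trans ?_
    rw [Finset.sum_mul]
    refine Finset.sum_le_sum fun v _ => ?_
    rw [norm_mul]
    exact mul_le_mul_of_nonneg_left (hZ n v) (norm_nonneg _)
  have h3 : Real.exp (R * ‖Z n v₀‖) ≤ Real.exp (|R| * La n) := by
    refine Real.exp_le_exp.2 ?_
    exact (mul_le_mul_of_nonneg_right (le_abs_self R) (norm_nonneg _)).trans
      (mul_le_mul_of_nonneg_left (hZ n v₀) (abs_nonneg _))
  have h6 : (0 : ℝ) ≤ ∏ v ∈ S, ((d v).factorial : ℝ) :=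
    Finset.prod_nonneg fun v _ => Nat.cast_nonneg _
  rw [norm_mul, norm_mul]
  calc ‖ga n‖ * ‖∏ v ∈ S, Z n v ^ d v‖ * ‖Complex.exp (∑ v ∈ T, μ v * Z n v)‖ *
        Real.exp (R * ‖Z n v₀‖)
      ≤ ‖ga n‖ * ((∏ v ∈ S, ((d v).factorial : ℝ)) * Real.exp (S.card * La n)) *
        Real.exp ((∑ v ∈ T, ‖μ v‖) * La n) * Real.exp (|R| * La n) := by
        gcongr
    _ = (∏ v ∈ S, ((d v).factorial : ℝ)) *
        (‖ga n‖ * Real.exp ((S.card + ∑ v ∈ T, ‖μ v‖ + |R|) * La n)) := by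
        rw [add_mul, add_mul, Real.exp_add, Real.exp_add]
        ring

/-- the induction -/
theorem main (hCOE : T_COE) (ga gb : X → ℂ) (Z W : X → J → ℂ) (La Lb : X → ℝ) (c : ℂ)
    (hsa : ∀ R : ℝ, Summable (fun n => ‖ga n‖ * Real.exp (R * La n)))
    (hsb : ∀ R : ℝ, Summable (fun n => ‖gb n‖ * Real.exp (R * Lb n)))
    (hZ : ∀ n v, ‖Z n v‖ ≤ La n) (hW : ∀ n v, ‖W n v‖ ≤ Lb n)
    (h0a : ∀ n, 0 ≤ La n) (h0b : ∀ n, 0 ≤ Lb n)
    (hbase : ∀ μ : J → ℂ, ∑' n, ga n * Complex.exp (∑ v, μ v * Z n v) =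
      c * ∑' n, gb n * Complex.exp (∑ v, μ v * W n v)) (d : J → ℕ) (S : Finset J) :
    ∀ μ : J → ℂ, ∑' n, ga n * (∏ v ∈ S, Z n v ^ d v) * Complex.exp (∑ v ∈ Sᶜ, μ v * Z n v) =
      c * ∑' n, gb n * (∏ v ∈ S, W n v ^ d v) * Complex.exp (∑ v ∈ Sᶜ, μ v * W n v) := by
  induction S using Finset.induction_on with
  | empty =>
    intro μ
    simp only [Finset.prod_empty, mul_one, Finset.compl_empty]
    exact hbase μ
  | insert v₀ S hv₀ ih =>
    intro μ
    have hupd : ∀ (V : J → ℂ) (μ' : ℂ), ∑ v ∈ Sᶜ, Function.update μ v₀ μ' v * V v =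
        μ' * V v₀ + ∑ v ∈ (insert v₀ S)ᶜ, μ v * V v := by
      intro V μ'
      rw [← Finset.insert_compl_insert hv₀, Finset.sum_insert, Function.update_self]
      · congr 1
        refine Finset.sum_congr rfl fun v hv => ?_
        have hne : v ≠ v₀ := by
          rintro rfl
          exact (Finset.mem_compl.1 hv) (Finset.mem_insert_self _ _)
        rw [Function.update_of_ne hne]
      · intro h
        exact (Finset.mem_compl.1 h) (Finset.mem_insert_self _ _)
    have h1 := hCOE X X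
      (fun n => ga n * (∏ v ∈ S, Z n v ^ d v) * Complex.exp (∑ v ∈ (insert v₀ S)ᶜ, μ v * Z n v))
      (fun n => Z n v₀)
      (fun n => c * (gb n * (∏ v ∈ S, W n v ^ d v) *
        Complex.exp (∑ v ∈ (insert v₀ S)ᶜ, μ v * W n v)))
      (fun n => W n v₀)
      (fun R => summable_aux ga Z La hsa hZ h0a d S _ μ v₀ R)
      (fun R => by
        have h2 := (summable_aux gb W Lb hsb hW h0b d S (insert v₀ S)ᶜ μ v₀ R).mul_left ‖c‖
        refine h2.congr fun n => ?_
        rw [norm_mul c]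
        ring)
      (fun μ' => by
        have h2 := ih (Function.update μ v₀ μ')
        rw [← tsum_mul_left] at h2
        refine Eq.trans (tsum_congr fun n => ?_) (h2.trans (tsum_congr fun n => ?_))
        · rw [hupd, Complex.exp_add]
          ring
        · rw [hupd, Complex.exp_add]
          ring)
      (d v₀)
    rw [← tsum_mul_left]
    refine Eq.trans (tsum_congr fun n => ?_) (h1.trans (tsum_congr fun n => ?_))
    · rw [Finset.prod_insert hv₀]
      ring
    · rw [Finset.prod_insert hv₀]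
      ring

theorem zc_le (e : J → ℝ) (he : ∀ v, e v = 1 ∨ e v = -1) (p : J × Fin 2 → ℝ) (v : J) :
    ‖zc e p v‖ ≤ ∑ i, |p i| := by
  have h1 : ‖zc e p v‖ ≤ |p (v, 0)| + |p (v, 1)| := by
    unfold zc
    refine (norm_add_le _ _).trans ?_
    rw [norm_mul, Complex.norm_I, one_mul, Complex.norm_real, Complex.norm_real, Real.norm_eq_abs,
      Real.norm_eq_abs, abs_mul]
    have h2 : |e v| = 1 := by
      rcases he v with h | h
      · rw [h, abs_one]
      · rw [h, abs_neg, abs_one]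
    rw [h2, one_mul]
  refine h1.trans ?_
  rw [Fintype.sum_prod_type]
  have h2 : ∀ u : J, ∑ j : Fin 2, |p (u, j)| = |p (u, 0)| + |p (u, 1)| := fun u =>
    Fin.sum_univ_two _
  rw [Finset.sum_congr rfl fun u _ => h2 u]
  exact Finset.single_le_sum (f := fun u => |p (u, 0)| + |p (u, 1)|)
    (fun u _ => add_nonneg (abs_nonneg _) (abs_nonneg _)) (Finset.mem_univ v)

theorem gau (hGAS : T_GAS) (A : Matrix (J × Fin 2) (J × Fin 2) ℝ) (hA : A.det ≠ 0) (R : ℝ) :
    Summable (fun n : J × Fin 2 → ℤ => ‖((Real.exp (-π * ∑ i, (mv A n i) ^ 2) : ℝ) : ℂ)‖ *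
      Real.exp (R * ∑ i, |mv A n i|)) := by
  refine (hGAS J A R hA).congr fun n => ?_
  rw [Complex.norm_real, Real.norm_eq_abs, abs_of_pos (Real.exp_pos _), ← Real.exp_add]

end PSM

open PSM in
theorem pf_PSM (hGAS : T_GAS) (hCOE : T_COE) (hPSE : T_PSE) : T_PSM := by
  intro J _ _ A e d hA he
  have hA' : ((A⁻¹).transpose).det ≠ 0 := by
    rw [Matrix.det_transpose, Matrix.det_nonsing_inv, Ring.inverse_eq_inv']
    exact inv_ne_zero hA
  have h := main hCOE
    (fun n : J × Fin 2 → ℤ => ((Real.exp (-π * ∑ i, (mv A n i) ^ 2) : ℝ) : ℂ))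
    (fun n : J × Fin 2 → ℤ =>
      ((Real.exp (-π * ∑ i, (mv (A⁻¹).transpose n i) ^ 2) : ℝ) : ℂ))
    (fun n v => zc e (mv A n) v) (fun n v => -Complex.I * zc e (mv (A⁻¹).transpose n) v)
    (fun n => ∑ i, |mv A n i|) (fun n => ∑ i, |mv (A⁻¹).transpose n i|)
    ((|A.det|⁻¹ : ℝ) : ℂ) (gau hGAS A hA) (gau hGAS _ hA')
    (fun n v => zc_le e he _ v)
    (fun n v => by
      rw [norm_mul, norm_neg, Complex.norm_I, one_mul]
      exact zc_le e he _ v)
    (fun n => Finset.sum_nonneg fun i _ => abs_nonneg _)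
    (fun n => Finset.sum_nonneg fun i _ => abs_nonneg _)
    (fun μ => hPSE J A e μ hA he) d Finset.univ (fun _ => 0)
  simp only [Finset.compl_univ, Finset.sum_empty, Complex.exp_zero, mul_one] at h
  exact h

end Pool.Agent.H67.CMC1
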